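import Mathlib
import Pool.Agent.H767R2.Charac
import Pool.Agent.H767R2.Exist3
import Pool.Agent.H767R2.Defs2

set_option autoImplicit false

/-!
# `d^W_min(𝒫) ≤ |𝒫| - 1`

For every essentially distinct family `𝒫` of at least two integer polynomials, the Host–Kra factor of order
`|𝒫| - 1` exists on every Weyl system and is characteristic for the averages of `𝒫`.
-/

namespace Pool.Agent.Results.MP_467fc0_an.WeylBound

open Pool.Agent.H767R2 MeasureTheory Filter Topology Polynomial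
open scoped ENNReal

/-- For every essentially distinct family `𝒫 ⊂ ℤ[t]` with `|𝒫| ≥ 2` one has `d^W_min(𝒫) ≤ |𝒫| - 1`. In detail: on
every Weyl system the Host–Kra factor `𝒵_{|𝒫| - 1}` exists and is characteristic for mean convergence of the averages
`A_N` of the family `𝒫`. -/
theorem result (P : Finset ℤ[X]) (hP : EssentiallyDistinct P) (h2 : 2 ≤ P.card) :
    dWMin P ≤ ((P.card - 1 : ℕ) : ℕ∞) ∧
      ∀ W : WeylSystem,
        (∃ 𝒵 : MeasurableSpace (Fin W.D → UnitAddCircle), IsHKFactor 𝒵 (haarT W.D) W.T (P.card - 1)) ∧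
        ∀ 𝒵 : MeasurableSpace (Fin W.D → UnitAddCircle), IsHKFactor 𝒵 (haarT W.D) W.T (P.card - 1) →
          IsCharacteristic 𝒵 (haarT W.D) W.T P := by
  refine ⟨iInf₂_le (P.card - 1) fun W => ?_, fun W => ⟨W.exists_hkFactor _, fun 𝒵 h𝒵 =>
    characteristic_card_sub_one P hP h2 W 𝒵 h𝒵⟩⟩
  obtain ⟨𝒵, h𝒵⟩ := W.exists_hkFactor (P.card - 1)
  exact ⟨𝒵, h𝒵, characteristic_card_sub_one P hP h2 W 𝒵 h𝒵⟩

end Pool.Agent.Results.MP_467fc0_an.WeylBound
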